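import Pool.Agent.H95.AD.TargetsU

/-!
# Gauss sums (row GAU of the board adu_modules)
-/

set_option autoImplicit false

open MeasureTheory Set Filter
open scoped Real

namespace Pool.Agent.H25.AD

open Pool.Agent.H31.CN Pool.Agent.H95.AD

lemma ee_add (x y : ℝ) : ee (x + y) = ee x * ee y := by
  unfold ee
  rw [← Complex.exp_add]
  congr 1
  push_cast
  ring

lemma ee_int (n : ℤ) : ee (n : ℝ) = 1 := by
  unfold ee
  rw [Complex.exp_eq_one_iff]
  exact ⟨n, by push_cast; ring⟩

lemma ee_eq_one (x : ℝ) (h : ee x = 1) : ∃ n : ℤ, x = n := by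
  unfold ee at h
  rw [Complex.exp_eq_one_iff] at h
  obtain ⟨n, hn⟩ := h
  refine ⟨n, ?_⟩
  have h1 : (2 * (π : ℂ) * Complex.I) ≠ 0 := Complex.two_pi_I_ne_zero
  have h2 : (x : ℂ) = (n : ℂ) := by
    apply mul_left_cancel₀ h1
    rw [hn]; ring
  exact_mod_cast h2

lemma norm_ee (x : ℝ) : ‖ee x‖ = 1 := by
  unfold ee
  have : 2 * (π : ℂ) * Complex.I * x = ((2 * π * x : ℝ) : ℂ) * Complex.I := by push_cast; ring
  rw [this]
  exact Complex.norm_exp_ofReal_mul_I _

lemma ee_conj (x : ℝ) : (starRingEnd ℂ) (ee x) = ee (-x) := by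
  unfold ee
  rw [← Complex.exp_conj]
  congr 1
  simp only [map_mul, Complex.conj_I, Complex.conj_ofReal, map_ofNat]
  push_cast
  ring

lemma ee_pow (x : ℝ) (n : ℕ) : ee (x * n) = ee x ^ n := by
  induction n with
  | zero => 
      have := ee_int 0
      simpa using this
  | succ n ih =>
      rw [pow_succ, ← ih, ← ee_add]
      congr 1
      push_cast
      ring

lemma sum_shift_one (f : ℕ → ℂ) (M : ℕ) (hf : ∀ B, f (B + M) = f B) :
    ∑ B ∈ Finset.range M, f (B + 1) = ∑ B ∈ Finset.range M, f B := by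
  have h1 : ∑ B ∈ Finset.range M, f (B + 1) + f 0 = ∑ B ∈ Finset.range M, f B + f M := by
    rw [← Finset.sum_range_succ' f M, Finset.sum_range_succ]
  have h2 : f M = f 0 := by simpa using hf 0
  rw [h2] at h1
  exact add_right_cancel h1

lemma sum_shift (f : ℕ → ℂ) (M : ℕ) (hf : ∀ B, f (B + M) = f B) (s : ℕ) :
    ∑ B ∈ Finset.range M, f (B + s) = ∑ B ∈ Finset.range M, f B := by
  induction s with
  | zero => simp
  | succ s ih =>
      rw [← ih]
      have h := sum_shift_one (fun B => f (B + s)) M (fun B => by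
        show f (B + M + s) = f (B + s)
        rw [show B + M + s = B + s + M by ring, hf])
      have h2 : ∀ B, f (B + (s + 1)) = f (B + 1 + s) := fun B => by
        rw [show B + (s + 1) = B + 1 + s by ring]
      rw [Finset.sum_congr rfl (fun B _ => h2 B)]
      exact h

lemma geom (x : ℝ) (M : ℕ) (hM : ee (x * M) = 1) :
    ‖∑ B ∈ Finset.range M, ee (x * B)‖ ≤ if ee x = 1 then (M : ℝ) else 0 := by
  by_cases hx : ee x = 1
  · rw [if_pos hx]
    calc ‖∑ B ∈ Finset.range M, ee (x * B)‖ ≤ ∑ B ∈ Finset.range M, ‖ee (x * B)‖ :=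
          norm_sum_le _ _
      _ = M := by
          rw [Finset.sum_congr rfl (fun B _ => norm_ee _)]
          simp
  · rw [if_neg hx]
    have h1 : ∑ B ∈ Finset.range M, ee (x * B) = ∑ B ∈ Finset.range M, (ee x) ^ B :=
      Finset.sum_congr rfl (fun B _ => ee_pow x B)
    rw [h1, geom_sum_eq hx, ← ee_pow, hM]
    simp

lemma card_mult (A k : ℕ) (hA : 1 ≤ A) :
    ((Finset.range (2 * A)).filter (fun h => 2 * A ∣ k * h)).card ≤ Nat.gcd k (2 * A) := by
  set t := Nat.gcd k (2 * A) with ht
  have htpos : 0 < t := Nat.gcd_pos_of_pos_right _ (by omega)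
  have hsub : (Finset.range (2 * A)).filter (fun h => 2 * A ∣ k * h) ⊆
      (Finset.range t).image (fun i => (2 * A / t) * i) := by
    intro h hh
    simp only [Finset.mem_filter, Finset.mem_range] at hh
    obtain ⟨h1, h2⟩ := hh
    have h3 : 2 * A / t ∣ h := by
      have hd : t ∣ 2 * A := Nat.gcd_dvd_right _ _
      have hk : t ∣ k := Nat.gcd_dvd_left _ _
      have hc : Nat.Coprime (2 * A / t) (k / t) :=
        (Nat.coprime_div_gcd_div_gcd htpos).symm
      apply hc.dvd_of_dvd_mul_left
      apply Nat.dvd_of_mul_dvd_mul_left htpos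
      rw [Nat.mul_div_cancel' hd, ← mul_assoc, Nat.mul_div_cancel' hk]
      exact h2
    obtain ⟨i, hi⟩ := h3
    simp only [Finset.mem_image, Finset.mem_range]
    refine ⟨i, ?_, hi.symm⟩
    by_contra hcon
    push Not at hcon
    have hd : t ∣ 2 * A := Nat.gcd_dvd_right _ _
    have : 2 * A ≤ h := by
      calc 2 * A = 2 * A / t * t := (Nat.div_mul_cancel hd).symm
        _ ≤ 2 * A / t * i := Nat.mul_le_mul_left _ hcon
        _ = h := hi.symm
    omega
  calc _ ≤ ((Finset.range t).image (fun i => (2 * A / t) * i)).card := Finset.card_le_card hsub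
    _ ≤ (Finset.range t).card := Finset.card_image_le
    _ = t := by simp

/-- the summand of the Gauss sum -/
noncomputable def gf (n A k : ℕ) (B : ℕ) : ℂ :=
  ee ((n : ℝ) * B / (2 * A) + (k : ℝ) * (B : ℝ) ^ 2 / (4 * A))

lemma gf_shift (n A k : ℕ) (B h : ℕ) :
    gf n A k (B + h) = gf n A k B * gf n A k h * ee ((k : ℝ) * h / (2 * A) * B) := by
  unfold gf
  rw [← ee_add, ← ee_add]
  congr 1
  by_cases hA : (A : ℝ) = 0
  · rw [hA]; simp
  · push_cast
    field_simp
    ring

lemma gf_per (n A k : ℕ) (hA : 1 ≤ A) (B : ℕ) : gf n A k (B + 2 * A) = gf n A k B := by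
  rw [gf_shift]
  have hA' : (A : ℝ) ≠ 0 := by
    have : (1 : ℝ) ≤ A := by exact_mod_cast hA
    positivity
  have h1 : gf n A k (2 * A) = 1 := by
    unfold gf
    have : (n : ℝ) * ((2 * A : ℕ) : ℝ) / (2 * A) + (k : ℝ) * (((2 * A : ℕ) : ℝ)) ^ 2 / (4 * A) =
        ((n + k * A : ℤ) : ℝ) := by
      push_cast
      field_simp
      ring
    rw [this, ee_int]
  have h2 : ee ((k : ℝ) * ((2 * A : ℕ) : ℝ) / (2 * A) * B) = 1 := by
    have : (k : ℝ) * ((2 * A : ℕ) : ℝ) / (2 * A) * B = ((k * B : ℤ) : ℝ) := by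
      push_cast
      field_simp
    rw [this, ee_int]
  rw [h1, h2]; ring

lemma norm_gf (n A k B : ℕ) : ‖gf n A k B‖ = 1 := norm_ee _

lemma gf_conj (n A k B : ℕ) : gf n A k B * (starRingEnd ℂ) (gf n A k B) = 1 := by
  rw [Complex.mul_conj, Complex.normSq_eq_norm_sq, norm_gf]
  simp

theorem pf_GAU : T_GAU := by
  intro n A k hA
  have hA' : (0 : ℝ) < A := by
    have : (1 : ℝ) ≤ A := by exact_mod_cast hA
    linarith
  have hgs : gs n A k = ∑ B ∈ Finset.range (2 * A), gf n A k B := rfl
  constructor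
  · have h1 : ((‖gs n A k‖ ^ 2 : ℝ) : ℂ) = ∑ h ∈ Finset.range (2 * A), gf n A k h *
        ∑ B ∈ Finset.range (2 * A), ee ((k : ℝ) * h / (2 * A) * B) := by
      rw [← Complex.normSq_eq_norm_sq, ← Complex.mul_conj]
      conv_lhs => rw [mul_comm]
      rw [hgs, map_sum, Finset.sum_mul]
      have h2 : ∀ B ∈ Finset.range (2 * A), (starRingEnd ℂ) (gf n A k B) *
          ∑ B' ∈ Finset.range (2 * A), gf n A k B' =
          ∑ h ∈ Finset.range (2 * A), gf n A k h * ee ((k : ℝ) * h / (2 * A) * B) := by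
        intro B _
        rw [← sum_shift (gf n A k) (2 * A) (gf_per n A k hA) B, Finset.mul_sum]
        refine Finset.sum_congr rfl (fun h _ => ?_)
        rw [show h + B = B + h by ring, gf_shift]
        calc (starRingEnd ℂ) (gf n A k B) * (gf n A k B * gf n A k h *
              ee ((k : ℝ) * h / (2 * A) * B)) =
            (gf n A k B * (starRingEnd ℂ) (gf n A k B)) * (gf n A k h *
              ee ((k : ℝ) * h / (2 * A) * B)) := by ring
          _ = _ := by rw [gf_conj]; ring
      rw [Finset.sum_congr rfl h2, Finset.sum_comm]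
      refine Finset.sum_congr rfl (fun h _ => ?_)
      rw [Finset.mul_sum]
    have h3 : ‖gs n A k‖ ^ 2 = ‖((‖gs n A k‖ ^ 2 : ℝ) : ℂ)‖ := by
      rw [Complex.norm_real, Real.norm_of_nonneg (by positivity)]
    rw [h3, h1]
    calc ‖∑ h ∈ Finset.range (2 * A), gf n A k h *
        ∑ B ∈ Finset.range (2 * A), ee ((k : ℝ) * h / (2 * A) * B)‖
        ≤ ∑ h ∈ Finset.range (2 * A), ‖gf n A k h *
        ∑ B ∈ Finset.range (2 * A), ee ((k : ℝ) * h / (2 * A) * B)‖ := norm_sum_le _ _
      _ ≤ ∑ h ∈ Finset.range (2 * A), (if 2 * A ∣ k * h then (2 * A : ℝ) else 0) := by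
          refine Finset.sum_le_sum (fun h _ => ?_)
          rw [norm_mul, norm_gf, one_mul]
          have hM : ee ((k : ℝ) * h / (2 * A) * ((2 * A : ℕ) : ℝ)) = 1 := by
            have : (k : ℝ) * h / (2 * A) * ((2 * A : ℕ) : ℝ) = ((k * h : ℤ) : ℝ) := by
              push_cast
              field_simp
            rw [this, ee_int]
          refine (geom _ _ hM).trans ?_
          by_cases hx : ee ((k : ℝ) * h / (2 * A)) = 1
          · rw [if_pos hx]
            obtain ⟨z, hz⟩ := ee_eq_one _ hx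
            have hdiv : 2 * A ∣ k * h := by
              rw [div_eq_iff (by positivity)] at hz
              have h4 : ((k * h : ℕ) : ℤ) = z * ((2 * A : ℕ) : ℤ) := by
                have : ((k * h : ℕ) : ℝ) = ((z * ((2 * A : ℕ) : ℤ) : ℤ) : ℝ) := by
                  push_cast
                  exact hz
                exact_mod_cast this
              have h5 : ((2 * A : ℕ) : ℤ) ∣ ((k * h : ℕ) : ℤ) := ⟨z, by rw [h4]; ring⟩
              exact_mod_cast h5
            rw [if_pos hdiv]
            push_cast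
            exact le_refl _
          · rw [if_neg hx]
            split_ifs <;> positivity
      _ = ((Finset.range (2 * A)).filter (fun h => 2 * A ∣ k * h)).card * (2 * A : ℝ) := by
          rw [← Finset.sum_filter, Finset.sum_const, nsmul_eq_mul]
      _ ≤ (Nat.gcd k (2 * A) : ℝ) * (2 * A : ℝ) := by
          refine mul_le_mul_of_nonneg_right ?_ (by positivity)
          exact_mod_cast card_mult A k hA
      _ = 2 * A * (Nat.gcd k (2 * A) : ℝ) := by ring
  · intro hnd
    by_contra hne
    apply hnd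
    set t := Nat.gcd k (2 * A) with ht
    have htpos : 0 < t := Nat.gcd_pos_of_pos_right _ (by omega)
    have hd : t ∣ 2 * A := Nat.gcd_dvd_right _ _
    have hk : t ∣ k := Nat.gcd_dvd_left _ _
    obtain ⟨s, hs⟩ := hd
    obtain ⟨c, hc⟩ := hk
    have htR : (0 : ℝ) < t := by exact_mod_cast htpos
    have hsR : (2 * A : ℝ) = t * s := by exact_mod_cast hs
    have hcR : (k : ℝ) = t * c := by exact_mod_cast hc
    have h1 : gs n A k = gf n A k s * gs n A k := by
      have h2 := sum_shift (gf n A k) (2 * A) (gf_per n A k hA) s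
      rw [hgs]
      conv_lhs => rw [← h2]
      rw [Finset.mul_sum]
      refine Finset.sum_congr rfl (fun B _ => ?_)
      rw [gf_shift]
      have h3 : ee ((k : ℝ) * s / (2 * A) * B) = 1 := by
        have : (k : ℝ) * s / (2 * A) * B = ((c * B : ℤ) : ℝ) := by
          rw [hsR, hcR]
          have hs0 : (s : ℝ) ≠ 0 := by
            intro h0
            rw [h0, mul_zero] at hsR
            linarith
          push_cast
          field_simp
        rw [this, ee_int]
      rw [h3]; ring
    have h2 : gf n A k s = 1 := by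
      have : (gf n A k s - 1) * gs n A k = 0 := by
        rw [sub_mul, one_mul, ← h1, sub_self]
      rcases mul_eq_zero.1 this with h | h
      · exact sub_eq_zero.1 h
      · exact absurd h hne
    unfold gf at h2
    obtain ⟨z, hz⟩ := ee_eq_one _ h2
    have hs0 : (s : ℝ) ≠ 0 := by
      intro h0
      rw [h0, mul_zero] at hsR
      linarith
    have h4A : (4 * A : ℝ) = 2 * (t * s) := by rw [← hsR]; ring
    rw [h4A, hsR, hcR] at hz
    have h5 : (2 * n : ℝ) + t * c * s = 2 * t * z := by
      field_simp at hz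
      nlinarith [hz]
    have h6 : (2 * n : ℤ) + t * c * s = 2 * t * z := by exact_mod_cast h5
    have h7 : ((t : ℕ) : ℤ) ∣ ((2 * n : ℕ) : ℤ) := by
      refine ⟨2 * z - c * s, ?_⟩
      push_cast
      linarith
    exact_mod_cast h7

end Pool.Agent.H25.AD
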