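import Pool.Agent.H25.AD.GAU

/-!
# Vanishing of Gauss sums
-/

set_option autoImplicit false

open MeasureTheory Set Filter
open scoped Real

namespace Pool.Agent.H25.AD

open Pool.Agent.H31.CN Pool.Agent.H95.AD

theorem gva (n A k : ℕ) (hA : 1 ≤ A) (hnd : ¬ Nat.gcd k A ∣ n) : gs n A k = 0 := by
  by_contra hne
  apply hnd
  have hgs : gs n A k = ∑ B ∈ Finset.range (2 * A), gf n A k B := rfl
  set t := Nat.gcd k A with ht
  have htpos : 0 < t := Nat.gcd_pos_of_pos_right _ (by omega)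
  have hd : t ∣ A := Nat.gcd_dvd_right _ _
  have hk : t ∣ k := Nat.gcd_dvd_left _ _
  obtain ⟨s, hs⟩ := hd
  obtain ⟨c, hc⟩ := hk
  have hA' : (0 : ℝ) < A := by
    have : (1 : ℝ) ≤ A := by exact_mod_cast hA
    linarith
  have htR : (0 : ℝ) < t := by exact_mod_cast htpos
  have hsR : (A : ℝ) = t * s := by exact_mod_cast hs
  have hcR : (k : ℝ) = t * c := by exact_mod_cast hc
  have hs0 : (s : ℝ) ≠ 0 := by
    intro h0
    rw [h0, mul_zero] at hsR
    linarith
  have h1 : gs n A k = gf n A k (2 * s) * gs n A k := by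
    have h2 := sum_shift (gf n A k) (2 * A) (gf_per n A k hA) (2 * s)
    rw [hgs]
    conv_lhs => rw [← h2]
    rw [Finset.mul_sum]
    refine Finset.sum_congr rfl (fun B _ => ?_)
    rw [gf_shift]
    have h3 : ee ((k : ℝ) * ((2 * s : ℕ) : ℝ) / (2 * A) * B) = 1 := by
      have : (k : ℝ) * ((2 * s : ℕ) : ℝ) / (2 * A) * B = ((c * B : ℤ) : ℝ) := by
        rw [hsR, hcR]
        push_cast
        field_simp
      rw [this, ee_int]
    rw [h3]; ring
  have h2 : gf n A k (2 * s) = 1 := by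
    have : (gf n A k (2 * s) - 1) * gs n A k = 0 := by
      rw [sub_mul, one_mul, ← h1, sub_self]
    rcases mul_eq_zero.1 this with h | h
    · exact sub_eq_zero.1 h
    · exact absurd h hne
  unfold gf at h2
  obtain ⟨z, hz⟩ := ee_eq_one _ h2
  rw [hsR, hcR] at hz
  push_cast at hz
  have h5 : (n : ℝ) + t * c * s = t * z := by
    field_simp at hz
    nlinarith [hz]
  have h6 : (n : ℤ) + t * c * s = t * z := by exact_mod_cast h5
  have h7 : ((t : ℕ) : ℤ) ∣ (n : ℤ) := by
    refine ⟨z - c * s, ?_⟩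
    linarith
  exact_mod_cast h7

end Pool.Agent.H25.AD
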